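import Pool.Agent.N840.TP.Abc

/-!
# Points of the projective line with a small truncated counting function and a large height

For every `ε > 0` there is `M` such that for `q ≥ 3` points of the projective line over `ℚ` and
every `A` there are at most `C X ^ (1 / q + ε)` points `x` of height at most `X ^ A` for which the
truncated counting function `N(x)` is at most `log X` and at most `h(x) / M` (`tall`).

Proof. The values of the `q` linear forms at `x` have essentially coprime radicals, so three of them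
have radicals with a product at most `X ^ (3 / q)`. These three values are the members of an
abc-triple, up to bounded factors, and the theorem of helper745 (for every `ε` there is `M` such
that at most `C Y ^ (1/3 + ε)` abc-triples have `rad ≤ Y` and `rad ^ M ≤ c ≤ Y ^ k`) applies.
-/

set_option autoImplicit false

namespace Pool.Agent.N840.TP

open Finset

/-- The value of the linear form -/
def Lf (α : ℤ × ℤ) (x : ℤ × ℤ) : ℤ := x.1 * α.2 - x.2 * α.1

/-- the height -/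
def htn (x : ℤ × ℤ) : ℕ := max x.1.natAbs x.2.natAbs

/-- Normalised coordinates of a point of the projective line over `ℚ` -/
def Nrm (x : ℤ × ℤ) : Prop := IsCoprime x.1 x.2 ∧ (0 < x.2 ∨ x.2 = 0 ∧ 0 < x.1)

/-- the truncated counting function -/
noncomputable def N1 {q : ℕ} (α : Fin q → ℤ × ℤ) (S : Finset ℕ) (x : ℤ × ℤ) : ℝ :=
  ∑ i, ∑ p ∈ (x.1 * (α i).2 - x.2 * (α i).1).natAbs.primeFactors \ S, Real.log p

/-- the determinant -/
def dt (α β : ℤ × ℤ) : ℤ := α.1 * β.2 - β.1 * α.2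

lemma plucker (α β γ x : ℤ × ℤ) :
    dt β γ * Lf α x + dt γ α * Lf β x + dt α β * Lf γ x = 0 := by
  unfold dt Lf; ring

/-- the abc-triple attached to a point -/
def tri (α β γ x : ℤ × ℤ) : ℕ × ℕ × ℕ :=
  ((dt β γ * Lf α x).natAbs / Nat.gcd (dt β γ * Lf α x).natAbs (dt γ α * Lf β x).natAbs,
   (dt γ α * Lf β x).natAbs / Nat.gcd (dt β γ * Lf α x).natAbs (dt γ α * Lf β x).natAbs,
   (dt α β * Lf γ x).natAbs / Nat.gcd (dt β γ * Lf α x).natAbs (dt γ α * Lf β x).natAbs)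

lemma nrm_eq {x y : ℤ × ℤ} (hx : Nrm x) (hy : Nrm y) (h : x.1 * y.2 = y.1 * x.2) : x = y := by
  obtain ⟨x1, x2⟩ := x
  obtain ⟨y1, y2⟩ := y
  obtain ⟨cx, sx⟩ := hx
  obtain ⟨cy, sy⟩ := hy
  simp only at cx cy sx sy h
  have h1 : x2 ∣ y2 := by
    have h0 : x2 ∣ x1 * y2 := by
      rw [h]
      exact dvd_mul_left _ _
    exact cx.symm.dvd_of_dvd_mul_left h0
  have h2 : y2 ∣ x2 := by
    have h0 : y2 ∣ y1 * x2 := by
      rw [← h]
      exact dvd_mul_left _ _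
    exact cy.symm.dvd_of_dvd_mul_left h0
  rcases sx with sx | ⟨sx, sx'⟩
  · rcases sy with sy | ⟨sy, sy'⟩
    · have h3 : x2 = y2 := Int.dvd_antisymm sx.le sy.le h1 h2
      subst h3
      have : x1 = y1 := mul_right_cancel₀ sx.ne' h
      rw [this]
    · exfalso
      rw [sy] at h2
      have := zero_dvd_iff.1 h2
      omega
  · rw [sx] at h1
    have hy2 : y2 = 0 := zero_dvd_iff.1 h1
    rcases sy with sy | ⟨_, sy'⟩
    · omega
    · subst hy2 sx
      rw [isCoprime_zero_right] at cx cy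
      have e1 : x1 = 1 := by
        rcases Int.isUnit_iff.1 cx with e | e <;> omega
      have e2 : y1 = 1 := by
        rcases Int.isUnit_iff.1 cy with e | e <;> omega
      rw [e1, e2]

section
variable {α β γ : ℤ × ℤ}

lemma tri_inj (h1 : dt β γ ≠ 0) (h2 : dt γ α ≠ 0) (h3 : dt α β ≠ 0) {x y : ℤ × ℤ} (hx : Nrm x)
    (hy : Nrm y) (sx : 0 < (dt β γ * Lf α x) * (dt γ α * Lf β x))
    (sy : 0 < (dt β γ * Lf α y) * (dt γ α * Lf β y)) (h : tri α β γ x = tri α β γ y) : x = y := by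
  unfold tri at h
  obtain ⟨u, hu⟩ : ∃ u, u = dt β γ * Lf α x := ⟨_, rfl⟩
  obtain ⟨v, hv⟩ : ∃ v, v = dt γ α * Lf β x := ⟨_, rfl⟩
  obtain ⟨u', hu'⟩ : ∃ u, u = dt β γ * Lf α y := ⟨_, rfl⟩
  obtain ⟨v', hv'⟩ : ∃ v, v = dt γ α * Lf β y := ⟨_, rfl⟩
  rw [← hu, ← hv, ← hu', ← hv'] at h
  rw [← hu, ← hv] at sx
  rw [← hu', ← hv'] at sy
  simp only [Prod.mk.injEq] at h
  obtain ⟨e1, e2, -⟩ := h
  obtain ⟨g, hg⟩ : ∃ g, g = Nat.gcd u.natAbs v.natAbs := ⟨_, rfl⟩
  obtain ⟨g', hg'⟩ : ∃ g, g = Nat.gcd u'.natAbs v'.natAbs := ⟨_, rfl⟩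
  rw [← hg, ← hg'] at e1 e2
  have d1 : g ∣ u.natAbs := hg ▸ Nat.gcd_dvd_left _ _
  have d2 : g ∣ v.natAbs := hg ▸ Nat.gcd_dvd_right _ _
  have d3 : g' ∣ u'.natAbs := hg' ▸ Nat.gcd_dvd_left _ _
  have d4 : g' ∣ v'.natAbs := hg' ▸ Nat.gcd_dvd_right _ _
  have k1 := Nat.mul_div_cancel' d1
  have k2 := Nat.mul_div_cancel' d2
  have k3 := Nat.mul_div_cancel' d3
  have k4 := Nat.mul_div_cancel' d4
  have k5 : u.natAbs * v'.natAbs = v.natAbs * u'.natAbs := by
    rw [← k1, ← k2, ← k3, ← k4, e1, e2]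
    ring
  have k6 : (u * v').natAbs = (v * u').natAbs := by
    rw [Int.natAbs_mul, Int.natAbs_mul, k5]
  have k7 : 0 < (u * v') * (v * u') := by
    have : (u * v') * (v * u') = (u * v) * (u' * v') := by ring
    rw [this]
    exact mul_pos sx sy
  have k8 : u * v' = v * u' := by
    rcases Int.natAbs_eq_natAbs_iff.1 k6 with h | h
    · exact h
    · exfalso
      rw [h] at k7
      have : -(v * u') * (v * u') = -((v * u') ^ 2) := by ring
      rw [this] at k7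
      have := sq_nonneg (v * u')
      linarith
  have k9 : dt β γ * dt γ α * (dt α β * (x.1 * y.2 - y.1 * x.2)) = 0 := by
    have : dt β γ * dt γ α * (dt α β * (x.1 * y.2 - y.1 * x.2)) = u * v' - v * u' := by
      rw [hu, hv, hu', hv']
      unfold dt Lf
      ring
    rw [this, k8, sub_self]
  have k10 : x.1 * y.2 - y.1 * x.2 = 0 := by
    rcases mul_eq_zero.1 k9 with h | h
    · exact absurd h (mul_ne_zero h1 h2)
    · rcases mul_eq_zero.1 h with h | h
      · exact absurd h h3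
      · exact h
  exact nrm_eq hx hy (sub_eq_zero.1 k10)

/-- a bound for the coefficients -/
def UB (α β γ : ℤ × ℤ) : ℕ := 1 + (α.1.natAbs + α.2.natAbs) + (β.1.natAbs + β.2.natAbs) +
  (γ.1.natAbs + γ.2.natAbs)

lemma Lf_le_UB (α x : ℤ × ℤ) {U : ℕ} (h : α.1.natAbs + α.2.natAbs ≤ U) :
    (Lf α x).natAbs ≤ U * htn x := by
  have h2 : x.1.natAbs ≤ htn x := le_max_left _ _
  have h3 : x.2.natAbs ≤ htn x := le_max_right _ _
  unfold Lf
  calc (x.1 * α.2 - x.2 * α.1).natAbs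
      ≤ (x.1 * α.2).natAbs + (x.2 * α.1).natAbs := by omega
    _ = x.1.natAbs * α.2.natAbs + x.2.natAbs * α.1.natAbs := by
        rw [Int.natAbs_mul, Int.natAbs_mul]
    _ ≤ htn x * α.2.natAbs + htn x * α.1.natAbs := by gcongr
    _ = (α.1.natAbs + α.2.natAbs) * htn x := by ring
    _ ≤ U * htn x := by gcongr

lemma htn_le (h3 : dt α β ≠ 0) (x : ℤ × ℤ) {U : ℕ} (ha : α.1.natAbs + α.2.natAbs ≤ U)
    (hb : β.1.natAbs + β.2.natAbs ≤ U) : htn x ≤ U * ((Lf α x).natAbs + (Lf β x).natAbs) := by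
  have e1 : dt α β * x.1 = α.1 * Lf β x - β.1 * Lf α x := by unfold dt Lf; ring
  have e2 : dt α β * x.2 = α.2 * Lf β x - β.2 * Lf α x := by unfold dt Lf; ring
  have key : ∀ z p r : ℤ, p.natAbs ≤ U → r.natAbs ≤ U → dt α β * z = p * Lf β x - r * Lf α x →
      z.natAbs ≤ U * ((Lf α x).natAbs + (Lf β x).natAbs) := by
    intro z p r hp hr he
    have f1 : 1 ≤ (dt α β).natAbs := Int.natAbs_pos.2 h3
    calc z.natAbs ≤ (dt α β).natAbs * z.natAbs := Nat.le_mul_of_pos_left _ f1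
      _ = (dt α β * z).natAbs := (Int.natAbs_mul _ _).symm
      _ = (p * Lf β x - r * Lf α x).natAbs := by rw [he]
      _ ≤ (p * Lf β x).natAbs + (r * Lf α x).natAbs := by omega
      _ = p.natAbs * (Lf β x).natAbs + r.natAbs * (Lf α x).natAbs := by
          rw [Int.natAbs_mul, Int.natAbs_mul]
      _ ≤ U * (Lf β x).natAbs + U * (Lf α x).natAbs := by gcongr
      _ = _ := by ring
  refine max_le ?_ ?_
  · exact key x.1 α.1 β.1 (by omega) (by omega) e1
  · exact key x.2 α.2 β.2 (by omega) (by omega) e2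

lemma gcd_dvd {x : ℤ × ℤ} (hx : IsCoprime x.1 x.2) :
    Nat.gcd (dt β γ * Lf α x).natAbs (dt γ α * Lf β x).natAbs ∣
      (dt β γ * dt γ α * dt α β).natAbs := by
  obtain ⟨g, hg⟩ : ∃ g, g = Nat.gcd (dt β γ * Lf α x).natAbs (dt γ α * Lf β x).natAbs := ⟨_, rfl⟩
  rw [← hg]
  have d1 : (g : ℤ) ∣ dt β γ * Lf α x := by
    rw [← Int.natAbs_dvd_natAbs, Int.natAbs_natCast]
    exact hg ▸ Nat.gcd_dvd_left _ _
  have d2 : (g : ℤ) ∣ dt γ α * Lf β x := by
    rw [← Int.natAbs_dvd_natAbs, Int.natAbs_natCast]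
    exact hg ▸ Nat.gcd_dvd_right _ _
  have d3 : (g : ℤ) ∣ dt β γ * dt γ α * dt α β * x.1 := by
    have : dt β γ * dt γ α * dt α β * x.1 = (dt γ α * Lf β x) * (dt β γ * α.1) -
        (dt β γ * Lf α x) * (dt γ α * β.1) := by
      unfold dt Lf; ring
    rw [this]
    exact dvd_sub (d2.mul_right _) (d1.mul_right _)
  have d4 : (g : ℤ) ∣ dt β γ * dt γ α * dt α β * x.2 := by
    have : dt β γ * dt γ α * dt α β * x.2 = (dt γ α * Lf β x) * (dt β γ * α.2) -
        (dt β γ * Lf α x) * (dt γ α * β.2) := by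
      unfold dt Lf; ring
    rw [this]
    exact dvd_sub (d2.mul_right _) (d1.mul_right _)
  obtain ⟨s, t, hst⟩ := hx
  have d5 : (g : ℤ) ∣ dt β γ * dt γ α * dt α β := by
    have : dt β γ * dt γ α * dt α β = dt β γ * dt γ α * dt α β * x.1 * s +
        dt β γ * dt γ α * dt α β * x.2 * t := by
      linear_combination (-(dt β γ * dt γ α * dt α β)) * hst
    rw [this]
    exact dvd_add (d3.mul_right _) (d4.mul_right _)
  exact Int.natCast_dvd.1 d5

lemma natAbs_add_of_mul_pos {u v : ℤ} (h : 0 < u * v) : (u + v).natAbs = u.natAbs + v.natAbs := by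
  rcases mul_pos_iff.1 h with ⟨h1, h2⟩ | ⟨h1, h2⟩ <;> omega

/-- the radical outside `S` -/
def rS (S : Finset ℕ) (n : ℤ) : ℕ := ∏ p ∈ n.natAbs.primeFactors \ S, p

/-- all properties of the triple attached to a point -/
lemma tri_props (S : Finset ℕ) (h1 : dt β γ ≠ 0) (h2 : dt γ α ≠ 0) (h3 : dt α β ≠ 0)
    {U : ℕ} (ha : α.1.natAbs + α.2.natAbs ≤ U)
    (hb : β.1.natAbs + β.2.natAbs ≤ U) (hc : γ.1.natAbs + γ.2.natAbs ≤ U)
    {x : ℤ × ℤ} (hx : Nrm x) (sx : 0 < (dt β γ * Lf α x) * (dt γ α * Lf β x))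
    (hγ : Lf γ x ≠ 0) :
    IsTriple (tri α β γ x) ∧
    rad3 (tri α β γ x) ≤ (dt β γ * dt γ α * dt α β).natAbs * (∏ p ∈ S with p ≠ 0, p) *
      (rS S (Lf α x) * rS S (Lf β x) * rS S (Lf γ x)) ∧
    htn x ≤ (dt β γ * dt γ α * dt α β).natAbs * U * (tri α β γ x).2.2 ∧
    (tri α β γ x).2.2 ≤ (dt β γ * dt γ α * dt α β).natAbs * U * htn x := by
  obtain ⟨u, hu⟩ : ∃ u, u = dt β γ * Lf α x := ⟨_, rfl⟩
  obtain ⟨v, hv⟩ : ∃ v, v = dt γ α * Lf β x := ⟨_, rfl⟩
  obtain ⟨w, hw⟩ : ∃ w, w = dt α β * Lf γ x := ⟨_, rfl⟩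
  obtain ⟨g, hg⟩ : ∃ g, g = Nat.gcd u.natAbs v.natAbs := ⟨_, rfl⟩
  obtain ⟨K, hK⟩ : ∃ K, K = (dt β γ * dt γ α * dt α β).natAbs := ⟨_, rfl⟩
  have hK0 : 0 < K := by
    rw [hK]
    exact Int.natAbs_pos.2 (mul_ne_zero (mul_ne_zero h1 h2) h3)
  have hgK : g ∣ K := by
    rw [hg, hu, hv, hK]
    exact gcd_dvd hx.1
  have htri : tri α β γ x = (u.natAbs / g, v.natAbs / g, w.natAbs / g) := by
    rw [hg, hu, hv, hw]
    rfl
  rw [← hu, ← hv] at sx
  have hu0 : u ≠ 0 := by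
    rintro rfl
    simp at sx
  have hv0 : v ≠ 0 := by
    rintro rfl
    simp at sx
  have hw0 : w ≠ 0 := by
    rw [hw]
    exact mul_ne_zero h3 hγ
  have hsum : w.natAbs = u.natAbs + v.natAbs := by
    rw [← natAbs_add_of_mul_pos sx]
    have := plucker α β γ x
    rw [← hu, ← hv, ← hw] at this
    omega
  have hu1 : 0 < u.natAbs := Int.natAbs_pos.2 hu0
  have hv1 : 0 < v.natAbs := Int.natAbs_pos.2 hv0
  have hw1 : 0 < w.natAbs := Int.natAbs_pos.2 hw0
  have hg0 : 0 < g := by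
    rw [hg]
    exact Nat.gcd_pos_of_pos_left _ hu1
  have gu : g ∣ u.natAbs := hg ▸ Nat.gcd_dvd_left _ _
  have gv : g ∣ v.natAbs := hg ▸ Nat.gcd_dvd_right _ _
  have gw : g ∣ w.natAbs := by
    rw [hsum]
    exact dvd_add gu gv
  have ku := Nat.mul_div_cancel' gu
  have kv := Nat.mul_div_cancel' gv
  have kw := Nat.mul_div_cancel' gw
  have la : (Lf α x).natAbs ≤ u.natAbs := by
    rw [hu, Int.natAbs_mul]
    exact Nat.le_mul_of_pos_left _ (Int.natAbs_pos.2 h1)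
  have lb : (Lf β x).natAbs ≤ v.natAbs := by
    rw [hv, Int.natAbs_mul]
    exact Nat.le_mul_of_pos_left _ (Int.natAbs_pos.2 h2)
  have hα : Lf α x ≠ 0 := by
    intro h
    apply hu0
    rw [hu, h, mul_zero]
  have hβ : Lf β x ≠ 0 := by
    intro h
    apply hv0
    rw [hv, h, mul_zero]
  rw [htri, ← hK]
  refine ⟨⟨?_, ?_, ?_, ?_⟩, ?_, ?_, ?_⟩
  · exact Nat.div_pos (Nat.le_of_dvd hu1 gu) hg0
  · exact Nat.div_pos (Nat.le_of_dvd hv1 gv) hg0
  · show Nat.Coprime (u.natAbs / g) (v.natAbs / g)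
    rw [hg]
    exact Nat.coprime_div_gcd_div_gcd (hg ▸ hg0)
  · show u.natAbs / g + v.natAbs / g = w.natAbs / g
    rw [hsum, Nat.add_div_of_dvd_right gu]
  · unfold rad3 radical
    refine Nat.le_of_dvd ?_ ?_
    · have p1 : 0 < ∏ p ∈ S with p ≠ 0, p :=
        Finset.prod_pos fun p hp => Nat.pos_of_ne_zero (Finset.mem_filter.1 hp).2
      have p2 : ∀ n : ℤ, 0 < rS S n := fun n =>
        Finset.prod_pos fun p hp => (Nat.prime_of_mem_primeFactors (Finset.mem_sdiff.1 hp).1).pos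
      have := p2 (Lf α x)
      have := p2 (Lf β x)
      have := p2 (Lf γ x)
      positivity
    · refine Finset.prod_primes_dvd _ (fun p hp => (Nat.prime_of_mem_primeFactors hp).prime) ?_
      intro p hp
      have hpp := Nat.prime_of_mem_primeFactors hp
      have hd : p ∣ u.natAbs * v.natAbs * w.natAbs := by
        refine (Nat.dvd_of_mem_primeFactors hp).trans ?_
        exact mul_dvd_mul (mul_dvd_mul (Nat.div_dvd_of_dvd gu) (Nat.div_dvd_of_dvd gv))
          (Nat.div_dvd_of_dvd gw)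
      have hd2 : p ∣ K * ((Lf α x).natAbs * (Lf β x).natAbs * (Lf γ x).natAbs) := by
        have e : K * ((Lf α x).natAbs * (Lf β x).natAbs * (Lf γ x).natAbs) =
            u.natAbs * v.natAbs * w.natAbs := by
          rw [hK, hu, hv, hw]
          simp only [Int.natAbs_mul]
          ring
        rw [e]
        exact hd
      by_cases hpS : p ∈ S
      · refine dvd_mul_of_dvd_left (dvd_mul_of_dvd_right ?_ _) _
        exact Finset.dvd_prod_of_mem _ (Finset.mem_filter.2 ⟨hpS, hpp.ne_zero⟩)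
      have key : ∀ n : ℤ, n ≠ 0 → p ∣ n.natAbs → p ∣ rS S n := by
        intro n hn hpn
        refine Finset.dvd_prod_of_mem _ (Finset.mem_sdiff.2 ⟨?_, hpS⟩)
        exact Nat.mem_primeFactors.2 ⟨hpp, hpn, Int.natAbs_ne_zero.2 hn⟩
      rcases (Nat.Prime.dvd_mul hpp).1 hd2 with h | h
      · exact dvd_mul_of_dvd_left (dvd_mul_of_dvd_left h _) _
      · refine dvd_mul_of_dvd_right ?_ _
        rcases (Nat.Prime.dvd_mul hpp).1 h with h | h
        · rcases (Nat.Prime.dvd_mul hpp).1 h with h | h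
          · exact dvd_mul_of_dvd_left (dvd_mul_of_dvd_left (key _ hα h) _) _
          · exact dvd_mul_of_dvd_left (dvd_mul_of_dvd_right (key _ hβ h) _) _
        · exact dvd_mul_of_dvd_right (key _ hγ h) _
  · show htn x ≤ K * U * (w.natAbs / g)
    have e1 : w.natAbs ≤ K * (w.natAbs / g) := by
      calc w.natAbs = g * (w.natAbs / g) := kw.symm
        _ ≤ K * (w.natAbs / g) := Nat.mul_le_mul_right _ (Nat.le_of_dvd hK0 hgK)
    calc htn x ≤ U * ((Lf α x).natAbs + (Lf β x).natAbs) := htn_le h3 x ha hb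
      _ ≤ U * w.natAbs := by
          apply Nat.mul_le_mul_left
          omega
      _ ≤ U * (K * (w.natAbs / g)) := Nat.mul_le_mul_left _ e1
      _ = _ := by ring
  · show w.natAbs / g ≤ K * U * htn x
    calc w.natAbs / g ≤ w.natAbs := Nat.div_le_self _ _
      _ = (dt α β).natAbs * (Lf γ x).natAbs := by rw [hw, Int.natAbs_mul]
      _ ≤ K * (U * htn x) := by
          refine Nat.mul_le_mul ?_ (Lf_le_UB γ x hc)
          rw [hK, Int.natAbs_mul]
          exact Nat.le_mul_of_pos_left _ (Int.natAbs_pos.2 (mul_ne_zero h1 h2))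
      _ = _ := by ring

end

/-- among three integers with sum zero two have the same sign -/
lemma sign_cases {u v w : ℤ} (hu : u ≠ 0) (hv : v ≠ 0) (hw : w ≠ 0) (_ : u + v + w = 0) :
    0 < u * v ∨ 0 < v * w ∨ 0 < w * u := by
  rcases lt_or_gt_of_ne hu with h1 | h1 <;> rcases lt_or_gt_of_ne hv with h2 | h2 <;>
    rcases lt_or_gt_of_ne hw with h3 | h3
  · exact Or.inl (mul_pos_of_neg_of_neg h1 h2)
  · exact Or.inl (mul_pos_of_neg_of_neg h1 h2)
  · exact Or.inr (Or.inr (mul_pos_of_neg_of_neg h3 h1))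
  · exact Or.inr (Or.inl (mul_pos h2 h3))
  · exact Or.inr (Or.inl (mul_pos_of_neg_of_neg h2 h3))
  · exact Or.inr (Or.inr (mul_pos h3 h1))
  · exact Or.inl (mul_pos h1 h2)
  · exact Or.inl (mul_pos h1 h2)

/-- three of `q` numbers have a sum which is at most the average -/
lemma exists_three {q : ℕ} (hq : 3 ≤ q) (a : Fin q → ℝ) : ∃ i j l : Fin q, i ≠ j ∧ j ≠ l ∧ l ≠ i ∧
    a i + a j + a l ≤ 3 / (q : ℝ) * ∑ i, a i := by
  obtain ⟨n, rfl⟩ : ∃ n, q = n + 3 := ⟨q - 3, by omega⟩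
  have h1 : ∀ c : Fin (n + 3), ∑ i, a (i + c) = ∑ i, a i := fun c =>
    Equiv.sum_comp (Equiv.addRight c) a
  have hsum : ∑ i : Fin (n + 3), (a (i + 0) + a (i + 1) + a (i + 2)) = 3 * ∑ i, a i := by
    rw [Finset.sum_add_distrib, Finset.sum_add_distrib, h1, h1, h1]
    ring
  obtain ⟨i, -, hi⟩ : ∃ i ∈ (Finset.univ : Finset (Fin (n + 3))),
      a (i + 0) + a (i + 1) + a (i + 2) ≤ 3 / ((n + 3 : ℕ) : ℝ) * ∑ i, a i := by
    apply Finset.exists_le_of_sum_le Finset.univ_nonempty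
    rw [hsum, Finset.sum_const, Finset.card_univ, Fintype.card_fin, nsmul_eq_mul]
    apply le_of_eq
    have : ((n + 3 : ℕ) : ℝ) ≠ 0 := by positivity
    field_simp
  refine ⟨i + 0, i + 1, i + 2, ?_, ?_, ?_, hi⟩
  · intro h
    have := add_left_cancel h
    have h2 := congrArg Fin.val this
    rw [Fin.val_one] at h2
    simp at h2
  · intro h
    have := add_left_cancel h
    have h2 := congrArg Fin.val this
    rw [Fin.val_one, Fin.val_two] at h2
    omega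
  · intro h
    have := add_left_cancel h
    have h2 := congrArg Fin.val this
    rw [Fin.val_two] at h2
    simp at h2


/-- the points of large height compared with their truncated counting function -/
def Tall {q : ℕ} (α : Fin q → ℤ × ℤ) (S : Finset ℕ) (M A X : ℝ) : Set (ℤ × ℤ) :=
  {x | Nrm x ∧ (∀ i, Lf (α i) x ≠ 0) ∧ N1 α S x ≤ Real.log X ∧
    M * N1 α S x ≤ Real.log (htn x) ∧ (htn x : ℝ) ≤ X ^ A}

lemma rS_pos (S : Finset ℕ) (n : ℤ) : 0 < rS S n :=
  Finset.prod_pos fun _ hp => (Nat.prime_of_mem_primeFactors (Finset.mem_sdiff.1 hp).1).pos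

lemma log_rS (S : Finset ℕ) (n : ℤ) :
    Real.log (rS S n) = ∑ p ∈ n.natAbs.primeFactors \ S, Real.log p := by
  unfold rS
  rw [Nat.cast_prod, Real.log_prod]
  intro p hp
  exact_mod_cast (Nat.prime_of_mem_primeFactors (Finset.mem_sdiff.1 hp).1).ne_zero

lemma N1_eq {q : ℕ} (α : Fin q → ℤ × ℤ) (S : Finset ℕ) (x : ℤ × ℤ) :
    N1 α S x = ∑ i, Real.log (rS S (Lf (α i) x)) := by
  unfold N1
  refine Finset.sum_congr rfl fun i _ => ?_
  rw [log_rS]
  rfl

lemma N1_nonneg {q : ℕ} (α : Fin q → ℤ × ℤ) (S : Finset ℕ) (x : ℤ × ℤ) : 0 ≤ N1 α S x := by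
  rw [N1_eq]
  exact Finset.sum_nonneg fun i _ => Real.log_natCast_nonneg _

lemma box_finite (B : ℕ) : ({x : ℤ × ℤ | htn x ≤ B} : Set (ℤ × ℤ)).Finite := by
  refine Set.Finite.subset (Finset.finite_toSet
    ((Finset.Icc (-(B : ℤ)) B) ×ˢ (Finset.Icc (-(B : ℤ)) B))) ?_
  intro x hx
  have h : htn x ≤ B := hx
  have h2 : x.1.natAbs ≤ htn x := le_max_left _ _
  have h3 : x.2.natAbs ≤ htn x := le_max_right _ _
  rw [Finset.mem_coe, Finset.mem_product, Finset.mem_Icc, Finset.mem_Icc]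
  omega

lemma Tall_finite {q : ℕ} (α : Fin q → ℤ × ℤ) (S : Finset ℕ) (M A X : ℝ) :
    (Tall α S M A X).Finite := by
  refine (box_finite ⌊X ^ A⌋₊).subset ?_
  rintro x ⟨-, -, -, -, h⟩
  exact Nat.le_floor h

lemma dt_le {α β : ℤ × ℤ} {U : ℕ} (ha : α.1.natAbs + α.2.natAbs ≤ U)
    (hb : β.1.natAbs + β.2.natAbs ≤ U) : (dt α β).natAbs ≤ 2 * U ^ 2 := by
  unfold dt
  calc (α.1 * β.2 - β.1 * α.2).natAbs ≤ (α.1 * β.2).natAbs + (β.1 * α.2).natAbs := by omega
    _ = α.1.natAbs * β.2.natAbs + β.1.natAbs * α.2.natAbs := by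
        rw [Int.natAbs_mul, Int.natAbs_mul]
    _ ≤ U * U + U * U := by
        gcongr <;> omega
    _ = _ := by ring

/-- the part of the tall points belonging to three of the points -/
def TPart {q : ℕ} (α : Fin q → ℤ × ℤ) (S : Finset ℕ) (M A B X : ℝ) (t : Fin q × Fin q × Fin q) :
    Set (ℤ × ℤ) :=
  {x | x ∈ Tall α S M A X ∧ t.1 ≠ t.2.1 ∧ t.2.1 ≠ t.2.2 ∧ t.2.2 ≠ t.1 ∧
    0 < (dt (α t.2.1) (α t.2.2) * Lf (α t.1) x) * (dt (α t.2.2) (α t.1) * Lf (α t.2.1) x) ∧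
    Real.log (rS S (Lf (α t.1) x)) + Real.log (rS S (Lf (α t.2.1) x)) +
      Real.log (rS S (Lf (α t.2.2) x)) ≤ 3 / (q : ℝ) * N1 α S x ∧ B < htn x}

lemma Tall_sub {q : ℕ} (hq : 3 ≤ q) (α : Fin q → ℤ × ℤ)
    (hα : ∀ i j, i ≠ j → (α i).1 * (α j).2 ≠ (α j).1 * (α i).2) (S : Finset ℕ) (M A X : ℝ)
    (B : ℕ) : Tall α S M A X ⊆ {x : ℤ × ℤ | htn x ≤ B} ∪
      ⋃ t ∈ (Finset.univ : Finset (Fin q × Fin q × Fin q)), TPart α S M A B X t := by
  intro x hx
  rcases le_or_gt (htn x) B with h | h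
  · exact Or.inl h
  right
  obtain ⟨i, j, l, h1, h2, h3, h4⟩ := exists_three hq (fun i => Real.log (rS S (Lf (α i) x)))
  rw [← N1_eq] at h4
  have hd : ∀ i j, i ≠ j → dt (α i) (α j) ≠ 0 := fun i j hij => sub_ne_zero.2 (hα i j hij)
  have hL := hx.2.1
  have hBx : (B : ℝ) < htn x := by exact_mod_cast h
  simp only [Set.mem_iUnion]
  rcases sign_cases (mul_ne_zero (hd j l h2) (hL i)) (mul_ne_zero (hd l i h3) (hL j))
    (mul_ne_zero (hd i j h1) (hL l)) (plucker _ _ _ _) with h5 | h5 | h5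
  · exact ⟨(i, j, l), Finset.mem_univ _, hx, h1, h2, h3, h5, h4, hBx⟩
  · exact ⟨(j, l, i), Finset.mem_univ _, hx, h2, h3, h1, h5, by simp only; linarith, hBx⟩
  · exact ⟨(l, i, j), Finset.mem_univ _, hx, h3, h1, h2, h5, by simp only; linarith, hBx⟩

lemma TPart_card {q : ℕ} (hq : 3 ≤ q) (α : Fin q → ℤ × ℤ)
    (hα : ∀ i j, i ≠ j → (α i).1 * (α j).2 ≠ (α j).1 * (α i).2) (S : Finset ℕ) (A : ℝ)
    {ε : ℝ} (hε : 0 < ε) {M' : ℕ} (hM : ∀ k : ℕ, ∃ C : ℝ, 0 ≤ C ∧ ∀ X : ℕ, 1 ≤ X →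
      ((Large M' k X).ncard : ℝ) ≤ C * (X : ℝ) ^ (1 / 3 + ε)) :
    ∃ B : ℕ, ∃ C : ℝ, 0 ≤ C ∧ ∀ X : ℝ, 1 ≤ X → ∀ t,
      ((TPart α S (2 * M' : ℝ) A B X t).ncard : ℝ) ≤ C * X ^ (1 / (q : ℝ) + ε) := by
  classical
  obtain ⟨U, hU⟩ : ∃ U : ℕ, U = 1 + ∑ i, ((α i).1.natAbs + (α i).2.natAbs) := ⟨_, rfl⟩
  have hUi : ∀ i, (α i).1.natAbs + (α i).2.natAbs ≤ U := by
    intro i
    rw [hU]
    have := Finset.single_le_sum (f := fun i => (α i).1.natAbs + (α i).2.natAbs)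
      (fun i _ => Nat.zero_le _) (Finset.mem_univ i)
    omega
  have hU1 : 1 ≤ U := by omega
  have hd : ∀ i j, i ≠ j → dt (α i) (α j) ≠ 0 := fun i j hij => sub_ne_zero.2 (hα i j hij)
  obtain ⟨K, hK⟩ : ∃ K : ℕ, K = 8 * U ^ 6 * ∏ p ∈ S with p ≠ 0, p := ⟨_, rfl⟩
  have hS1 : 1 ≤ ∏ p ∈ S with p ≠ 0, p :=
    Finset.prod_pos fun p hp => Nat.pos_of_ne_zero (Finset.mem_filter.1 hp).2
  have hK1 : 1 ≤ K := by
    rw [hK]
    have : 0 < 8 * U ^ 6 * ∏ p ∈ S with p ≠ 0, p := by positivity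
    exact this
  have hdK : ∀ i j l : Fin q, (dt (α j) (α l) * dt (α l) (α i) * dt (α i) (α j)).natAbs ≤
      8 * U ^ 6 := by
    intro i j l
    rw [Int.natAbs_mul, Int.natAbs_mul]
    calc (dt (α j) (α l)).natAbs * (dt (α l) (α i)).natAbs * (dt (α i) (α j)).natAbs
        ≤ (2 * U ^ 2) * (2 * U ^ 2) * (2 * U ^ 2) := by
          gcongr <;> exact dt_le (hUi _) (hUi _)
      _ = _ := by ring
  have h8 : 8 * U ^ 6 ≤ K := by
    rw [hK]
    exact Nat.le_mul_of_pos_right _ hS1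
  obtain ⟨k, hk⟩ : ∃ k, k = K * U + ⌈A * q / 3⌉₊ := ⟨_, rfl⟩
  obtain ⟨C, hC0, hC⟩ := hM k
  have hq0 : (0 : ℝ) < q := by
    have : 0 < q := by omega
    exact_mod_cast this
  refine ⟨(K ^ (M' + 1) * U) ^ 2, C * ((K : ℝ) + 2) ^ (1 / 3 + ε), by positivity,
    fun X hX t => ?_⟩
  have hX0 : 0 < X := by linarith
  obtain ⟨i, j, l⟩ := t
  obtain ⟨Y, hY⟩ : ∃ Y : ℕ, Y = ⌈(K : ℝ) * X ^ (3 / (q : ℝ))⌉₊ + 1 := ⟨_, rfl⟩
  have hXq : 1 ≤ X ^ (3 / (q : ℝ)) := Real.one_le_rpow hX (by positivity)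
  have hK1r : (1 : ℝ) ≤ K := by exact_mod_cast hK1
  have hY1 : (K : ℝ) * X ^ (3 / (q : ℝ)) ≤ Y := by
    rw [hY]
    push_cast
    have := Nat.le_ceil ((K : ℝ) * X ^ (3 / (q : ℝ)))
    linarith
  have hY2 : (Y : ℝ) ≤ (K + 2) * X ^ (3 / (q : ℝ)) := by
    have : (⌈(K : ℝ) * X ^ (3 / (q : ℝ))⌉₊ : ℝ) < (K : ℝ) * X ^ (3 / (q : ℝ)) + 1 :=
      Nat.ceil_lt_add_one (by positivity)
    rw [hY]
    push_cast
    linarith
  have hY3 : 2 ≤ Y := by
    rw [hY]
    have : 0 < ⌈(K : ℝ) * X ^ (3 / (q : ℝ))⌉₊ := Nat.ceil_pos.2 (by positivity)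
    omega
  have hYX : X ^ (3 / (q : ℝ)) ≤ Y := by
    refine le_trans ?_ hY1
    exact le_mul_of_one_le_left (by positivity) hK1r
  by_cases hdis : i ≠ j ∧ j ≠ l ∧ l ≠ i
  swap
  · have : TPart α S (2 * M' : ℝ) A ((((K ^ (M' + 1) * U) ^ 2 : ℕ)) : ℝ) X (i, j, l) = ∅ := by
      rw [Set.eq_empty_iff_forall_notMem]
      rintro x ⟨-, h1, h2, h3, -⟩
      exact hdis ⟨h1, h2, h3⟩
    rw [this, Set.ncard_empty, Nat.cast_zero]
    positivity
  obtain ⟨h1, h2, h3⟩ := hdis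
  have hmaps : ∀ x ∈ TPart α S (2 * M' : ℝ) A ((((K ^ (M' + 1) * U) ^ 2 : ℕ)) : ℝ) X (i, j, l),
      tri (α i) (α j) (α l) x ∈ Large M' k Y := by
    rintro x ⟨⟨x1, x2, x3, x4, x5⟩, -, -, -, x6, x7, x8⟩
    simp only at x6 x7
    obtain ⟨t1, t2, t3, t4⟩ := tri_props S (hd j l h2) (hd l i h3) (hd i j h1) (hUi i) (hUi j)
      (hUi l) x1 x6 (x2 l)
    have hN0 := N1_nonneg α S x
    have hradK : (rad3 (tri (α i) (α j) (α l) x) : ℝ) ≤
        K * Real.exp (3 / (q : ℝ) * N1 α S x) := by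
      have e1 : rad3 (tri (α i) (α j) (α l) x) ≤
          K * (rS S (Lf (α i) x) * rS S (Lf (α j) x) * rS S (Lf (α l) x)) := by
        refine t2.trans (Nat.mul_le_mul_right _ ?_)
        rw [hK]
        exact Nat.mul_le_mul_right _ (hdK i j l)
      have e2 : ((rS S (Lf (α i) x) * rS S (Lf (α j) x) * rS S (Lf (α l) x) : ℕ) : ℝ) ≤
          Real.exp (3 / (q : ℝ) * N1 α S x) := by
        have p1 : (0 : ℝ) < rS S (Lf (α i) x) := by exact_mod_cast rS_pos S _
        have p2 : (0 : ℝ) < rS S (Lf (α j) x) := by exact_mod_cast rS_pos S _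
        have p3 : (0 : ℝ) < rS S (Lf (α l) x) := by exact_mod_cast rS_pos S _
        push_cast
        rw [← Real.log_le_iff_le_exp (by positivity), Real.log_mul (by positivity) p3.ne',
          Real.log_mul p1.ne' p2.ne']
        exact x7
      calc (rad3 (tri (α i) (α j) (α l) x) : ℝ) ≤
          ((K * (rS S (Lf (α i) x) * rS S (Lf (α j) x) * rS S (Lf (α l) x)) : ℕ) : ℝ) := by
            exact_mod_cast e1
        _ = K * ((rS S (Lf (α i) x) * rS S (Lf (α j) x) * rS S (Lf (α l) x) : ℕ) : ℝ) := by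
            rw [Nat.cast_mul]
        _ ≤ _ := mul_le_mul_of_nonneg_left e2 (by positivity)
    refine ⟨t1, ?_, ?_, ?_⟩
    · have e1 : (rad3 (tri (α i) (α j) (α l) x) : ℝ) ≤ Y := by
        refine hradK.trans (le_trans ?_ hY1)
        apply mul_le_mul_of_nonneg_left _ (by positivity)
        rw [Real.rpow_def_of_pos hX0, mul_comm (Real.log X)]
        apply Real.exp_le_exp.2
        exact mul_le_mul_of_nonneg_left x3 (by positivity)
      exact_mod_cast e1
    · -- the exponent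
      have hh0 : (0 : ℝ) < htn x := lt_of_le_of_lt (by positivity) x8
      have e1 : Real.exp (M' * N1 α S x) ≤ Real.sqrt (htn x) := by
        apply Real.le_sqrt_of_sq_le
        rw [← Real.exp_nat_mul]
        rw [← Real.le_log_iff_exp_le hh0]
        push_cast
        linarith
      have e2 : (rad3 (tri (α i) (α j) (α l) x) : ℝ) ^ M' ≤
          (K : ℝ) ^ M' * Real.sqrt (htn x) := by
        calc (rad3 (tri (α i) (α j) (α l) x) : ℝ) ^ M'
            ≤ (K * Real.exp (3 / (q : ℝ) * N1 α S x)) ^ M' :=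
              pow_le_pow_left₀ (Nat.cast_nonneg _) hradK _
          _ ≤ (K * Real.exp (N1 α S x)) ^ M' := by
              apply pow_le_pow_left₀ (by positivity)
              apply mul_le_mul_of_nonneg_left _ (by positivity)
              apply Real.exp_le_exp.2
              have : 3 / (q : ℝ) ≤ 1 := by
                rw [div_le_one hq0]
                exact_mod_cast hq
              nlinarith
          _ = (K : ℝ) ^ M' * Real.exp (M' * N1 α S x) := by
              rw [mul_pow, ← Real.exp_nat_mul]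
          _ ≤ _ := mul_le_mul_of_nonneg_left e1 (by positivity)
      have e3 : ((K : ℝ) ^ (M' + 1) * U) ≤ Real.sqrt (htn x) := by
        apply Real.le_sqrt_of_sq_le
        have := x8.le
        push_cast at this
        exact this
      have e4 : (htn x : ℝ) ≤ K * U * ((tri (α i) (α j) (α l) x).2.2 : ℝ) := by
        have : htn x ≤ K * U * (tri (α i) (α j) (α l) x).2.2 := by
          refine t3.trans ?_
          apply Nat.mul_le_mul_right
          apply Nat.mul_le_mul_right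
          exact (hdK i j l).trans h8
        exact_mod_cast this
      have hs : Real.sqrt (htn x) * Real.sqrt (htn x) = htn x := Real.mul_self_sqrt hh0.le
      have hKU : (0 : ℝ) < K * U := by positivity
      have e5 : (K : ℝ) * U * ((rad3 (tri (α i) (α j) (α l) x) : ℝ) ^ M') ≤
          K * U * ((tri (α i) (α j) (α l) x).2.2 : ℝ) := by
        refine le_trans ?_ e4
        calc (K : ℝ) * U * ((rad3 (tri (α i) (α j) (α l) x) : ℝ) ^ M')
            ≤ K * U * ((K : ℝ) ^ M' * Real.sqrt (htn x)) := mul_le_mul_of_nonneg_left e2 hKU.le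
          _ = ((K : ℝ) ^ (M' + 1) * U) * Real.sqrt (htn x) := by rw [pow_succ]; ring
          _ ≤ Real.sqrt (htn x) * Real.sqrt (htn x) :=
              mul_le_mul_of_nonneg_right e3 (Real.sqrt_nonneg _)
          _ = htn x := hs
      have e6 := le_of_mul_le_mul_left e5 hKU
      exact_mod_cast e6
    · -- the size
      have e1 : ((tri (α i) (α j) (α l) x).2.2 : ℝ) ≤ (Y : ℝ) ^ k := by
        have f1 : (tri (α i) (α j) (α l) x).2.2 ≤ K * U * htn x := by
          refine t4.trans ?_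
          apply Nat.mul_le_mul_right
          apply Nat.mul_le_mul_right
          exact (hdK i j l).trans h8
        have f2 : ((tri (α i) (α j) (α l) x).2.2 : ℝ) ≤ (K * U : ℕ) * (htn x : ℝ) := by
          exact_mod_cast f1
        have f3 : ((K * U : ℕ) : ℝ) ≤ (Y : ℝ) ^ (K * U) := by
          have g1 : K * U < 2 ^ (K * U) := Nat.lt_two_pow_self
          have g2 : 2 ^ (K * U) ≤ Y ^ (K * U) := Nat.pow_le_pow_left hY3 _
          exact_mod_cast g1.le.trans g2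
        have f4 : (htn x : ℝ) ≤ (Y : ℝ) ^ ⌈A * q / 3⌉₊ := by
          calc (htn x : ℝ) ≤ X ^ A := x5
            _ ≤ X ^ (3 / (q : ℝ) * (⌈A * q / 3⌉₊ : ℝ)) := by
                apply Real.rpow_le_rpow_of_exponent_le hX
                have g1 := Nat.le_ceil (A * q / 3)
                calc A = 3 / (q : ℝ) * (A * q / 3) := by field_simp
                  _ ≤ _ := mul_le_mul_of_nonneg_left g1 (by positivity)
            _ = (X ^ (3 / (q : ℝ))) ^ ⌈A * q / 3⌉₊ := by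
                rw [Real.rpow_mul hX0.le, Real.rpow_natCast]
            _ ≤ _ := pow_le_pow_left₀ (by positivity) hYX _
        calc ((tri (α i) (α j) (α l) x).2.2 : ℝ) ≤ (K * U : ℕ) * (htn x : ℝ) := f2
          _ ≤ (Y : ℝ) ^ (K * U) * (Y : ℝ) ^ ⌈A * q / 3⌉₊ :=
              mul_le_mul f3 f4 (by positivity) (by positivity)
          _ = (Y : ℝ) ^ k := by rw [← pow_add, hk]
      exact_mod_cast e1
  have hinj : Set.InjOn (fun x => tri (α i) (α j) (α l) x)
      (TPart α S (2 * M' : ℝ) A ((((K ^ (M' + 1) * U) ^ 2 : ℕ)) : ℝ) X (i, j, l)) := by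
    rintro x ⟨⟨x1, -⟩, -, -, -, x6, -⟩ y ⟨⟨y1, -⟩, -, -, -, y6, -⟩ hxy
    exact tri_inj (hd j l h2) (hd l i h3) (hd i j h1) x1 y1 x6 y6 hxy
  have hcard := Set.ncard_le_ncard_of_injOn _ hmaps hinj (large_fin M' k Y)
  have hcard' : ((TPart α S (2 * M' : ℝ) A ((((K ^ (M' + 1) * U) ^ 2 : ℕ)) : ℝ) X
      (i, j, l)).ncard : ℝ) ≤ ((Large M' k Y).ncard : ℝ) := by exact_mod_cast hcard
  refine hcard'.trans ((hC Y (by omega)).trans ?_)
  calc C * (Y : ℝ) ^ (1 / 3 + ε) ≤ C * (((K : ℝ) + 2) * X ^ (3 / (q : ℝ))) ^ (1 / 3 + ε) := by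
        apply mul_le_mul_of_nonneg_left _ hC0
        exact Real.rpow_le_rpow (Nat.cast_nonneg _) hY2 (by positivity)
    _ = C * ((K : ℝ) + 2) ^ (1 / 3 + ε) * X ^ (3 / (q : ℝ) * (1 / 3 + ε)) := by
        rw [Real.mul_rpow (by positivity) (by positivity), ← Real.rpow_mul hX0.le]
        ring
    _ ≤ C * ((K : ℝ) + 2) ^ (1 / 3 + ε) * X ^ (1 / (q : ℝ) + ε) := by
        apply mul_le_mul_of_nonneg_left _ (by positivity)
        apply Real.rpow_le_rpow_of_exponent_le hX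
        have g1 : 3 / (q : ℝ) ≤ 1 := by
          rw [div_le_one hq0]
          exact_mod_cast hq
        have g2 : 3 / (q : ℝ) * (1 / 3 + ε) = 1 / (q : ℝ) + 3 / (q : ℝ) * ε := by ring
        rw [g2]
        nlinarith

/-- **Tall points of the projective line.** -/
theorem tall (ε : ℝ) (hε : 0 < ε) : ∃ M : ℕ, 1 ≤ M ∧ ∀ q : ℕ, 3 ≤ q → ∀ α : Fin q → ℤ × ℤ,
    (∀ i j, i ≠ j → (α i).1 * (α j).2 ≠ (α j).1 * (α i).2) → ∀ (S : Finset ℕ) (A : ℝ),
    ∃ C : ℝ, 0 < C ∧ ∀ X : ℝ, 1 ≤ X → (Tall α S M A X).Finite ∧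
      ((Tall α S M A X).ncard : ℝ) ≤ C * X ^ (1 / (q : ℝ) + ε) := by
  classical
  obtain ⟨M', hM1, hM⟩ := part_one ε hε
  refine ⟨2 * M', by omega, fun q hq α hα S A => ?_⟩
  obtain ⟨B, C, hC0, hC⟩ := TPart_card hq α hα S A hε hM
  have hq0 : (0 : ℝ) < q := by
    have : 0 < q := by omega
    exact_mod_cast this
  refine ⟨({x : ℤ × ℤ | htn x ≤ B} : Set (ℤ × ℤ)).ncard +
    (Fintype.card (Fin q × Fin q × Fin q)) * C + 1, by positivity, fun X hX => ?_⟩
  refine ⟨Tall_finite _ _ _ _ _, ?_⟩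
  push_cast
  have hsub := Tall_sub hq α hα S (2 * M' : ℝ) A X B
  have hfin : ∀ t, (TPart α S (2 * M' : ℝ) A B X t).Finite := fun t =>
    (Tall_finite α S (2 * M' : ℝ) A X).subset fun x hx => hx.1
  have hfin2 : (⋃ t ∈ (Finset.univ : Finset (Fin q × Fin q × Fin q)),
      TPart α S (2 * M' : ℝ) A B X t).Finite :=
    Set.Finite.biUnion (Finset.finite_toSet _) fun t _ => hfin t
  have h1 := (Set.ncard_le_ncard hsub ((box_finite B).union hfin2)).trans
    (Set.ncard_union_le _ _)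
  have h2 := Finset.set_ncard_biUnion_le (Finset.univ : Finset (Fin q × Fin q × Fin q))
    (fun t => TPart α S (2 * M' : ℝ) A B X t)
  have h3 : ((Tall α S (2 * M' : ℝ) A X).ncard : ℝ) ≤
      ({x : ℤ × ℤ | htn x ≤ B} : Set (ℤ × ℤ)).ncard +
      ∑ t : Fin q × Fin q × Fin q, ((TPart α S (2 * M' : ℝ) A B X t).ncard : ℝ) := by
    have := h1.trans (Nat.add_le_add_left h2 _)
    exact_mod_cast this
  have hXq : 1 ≤ X ^ (1 / (q : ℝ) + ε) := Real.one_le_rpow hX (by positivity)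
  have h4 : ∑ t : Fin q × Fin q × Fin q, ((TPart α S (2 * M' : ℝ) A B X t).ncard : ℝ) ≤
      (Fintype.card (Fin q × Fin q × Fin q)) * (C * X ^ (1 / (q : ℝ) + ε)) := by
    refine (Finset.sum_le_sum fun t _ => hC X hX t).trans ?_
    rw [Finset.sum_const, Finset.card_univ, nsmul_eq_mul]
  have h5 : (0 : ℝ) ≤ ({x : ℤ × ℤ | htn x ≤ B} : Set (ℤ × ℤ)).ncard := Nat.cast_nonneg _
  calc ((Tall α S (2 * M' : ℝ) A X).ncard : ℝ)
      ≤ ({x : ℤ × ℤ | htn x ≤ B} : Set (ℤ × ℤ)).ncard +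
        (Fintype.card (Fin q × Fin q × Fin q)) * (C * X ^ (1 / (q : ℝ) + ε)) :=
        h3.trans (add_le_add_right h4 _)
    _ ≤ ({x : ℤ × ℤ | htn x ≤ B} : Set (ℤ × ℤ)).ncard * X ^ (1 / (q : ℝ) + ε) +
        (Fintype.card (Fin q × Fin q × Fin q)) * (C * X ^ (1 / (q : ℝ) + ε)) +
        X ^ (1 / (q : ℝ) + ε) := by
        have := mul_le_mul_of_nonneg_left hXq h5
        linarith
    _ = _ := by push_cast; ring

end Pool.Agent.N840.TP
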