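import Pool.Agent.N840.TP.Main
import Pool.Agent.Y680.T.F26
import Pool.Agent.Y680.T.F24
import Pool.Agent.Y680.T.F6
import Pool.Agent.Y680.S.Bij

/-!
# Semistable elliptic curves with a large Szpiro ratio, in families with `q` rational cusps
-/

set_option autoImplicit false

namespace Pool.Agent.N840.TP

open Finset WeierstrassCurve
open Pool.Agent.Y680.T (Fam Tor rd inv Cv ncard_biUnion_le log_rd rd_pos full2)

/-- the invariants of the curves with the property `P` with `rd W ≤ X` and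
`rd W ^ M ≤ |Δ| ≤ X ^ A` -/
def TC (P : WeierstrassCurve ℤ → Prop) (M A X : ℝ) : Set (ℤ × ℤ) :=
  {g | ∃ W, P W ∧ (rd W : ℝ) ≤ X ∧ (rd W : ℝ) ^ M ≤ |(W.Δ : ℝ)| ∧ |(W.Δ : ℝ)| ≤ X ^ A ∧ inv W = g}

section
variable {q : ℕ} {P : WeierstrassCurve ℤ → Prop} (F : Fam q P)

include F in
theorem fam_tall (hq : 3 ≤ q) (ε : ℝ) (hε : 0 < ε) : ∃ M : ℝ, 1 ≤ M ∧ ∀ A : ℝ, ∃ C : ℝ, 0 < C ∧
    ∀ X : ℝ, 1 ≤ X → (TC P M A X).Finite ∧
      ((TC P M A X).ncard : ℝ) ≤ C * X ^ (1 / (q : ℝ) + ε) := by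
  classical
  obtain ⟨M1, hM1, hM⟩ := tall ε hε
  obtain ⟨D, hD⟩ : ∃ D : ℕ, D = ∑ i, F.e i := ⟨_, rfl⟩
  have hMr : (1 : ℝ) ≤ M1 := by exact_mod_cast hM1
  refine ⟨2 * M1 * (D + 1), ?_, fun A => ?_⟩
  · have : (0 : ℝ) ≤ D := Nat.cast_nonneg _
    nlinarith
  obtain ⟨A', hA'⟩ : ∃ A' : ℝ, A' = max A 1 := ⟨_, rfl⟩
  obtain ⟨C, hC, h⟩ := hM q hq F.α F.hα F.S A'
  obtain ⟨U, hU⟩ : ∃ U : ℕ, U = F.U := ⟨_, rfl⟩
  have hU1 : 1 ≤ U := by
    rw [hU]
    unfold Fam.U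
    omega
  obtain ⟨c, hc⟩ : ∃ c : ℝ, c = 2 * U * (F.A + 1) := ⟨_, rfl⟩
  have hU1r : (1 : ℝ) ≤ U := by exact_mod_cast hU1
  have hA0 : (0 : ℝ) ≤ F.A := Nat.cast_nonneg _
  have hc1 : 1 ≤ c := by
    rw [hc]
    nlinarith
  have hq0 : (0 : ℝ) < q := by
    have : 0 < q := by omega
    exact_mod_cast this
  refine ⟨(F.K + 1) * (({x : ℤ × ℤ | htn x ≤ U} : Set (ℤ × ℤ)).ncard + C * c ^ (1 / (q : ℝ) + ε)),
    by positivity, fun X hX => ?_⟩
  have hX0 : 0 < X := by linarith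
  have hcX : 1 ≤ c * X := by nlinarith
  obtain ⟨f1, f2⟩ := h (c * X) hcX
  have h1 : ∀ g ∈ TC P (2 * M1 * (D + 1)) A X, ∃ x ∈ ({x : ℤ × ℤ | htn x ≤ U} ∪
      Tall F.α F.S M1 A' (c * X) : Set (ℤ × ℤ)), g ∈ F.R x := by
    rintro g ⟨W, hW, hWX, hWM, hWA, rfl⟩
    obtain ⟨x, hn, hl, k, hk0, hkA, hk, hprod, hR⟩ := F.hx W hW
    refine ⟨x, ?_, hR⟩
    rcases le_or_gt (htn x) U with h5 | h5
    · exact Or.inl h5
    right
    have hΔ := F.hP W hW
    have hN1 : N1 F.α F.S x ≤ Real.log (rd W) := F.N1_le hn hk hΔ hprod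
    have hN0 := N1_nonneg F.α F.S x
    have hrd : (1 : ℝ) ≤ rd W := by exact_mod_cast rd_pos W
    have hrd0 : (0 : ℝ) < rd W := by linarith
    have hh0 : (0 : ℝ) < htn x := by
      have : 0 < htn x := by omega
      exact_mod_cast this
    have hΔ0 : (0 : ℝ) < |(W.Δ : ℝ)| := abs_pos.2 (by exact_mod_cast hΔ)
    -- upper bound for the discriminant
    have hDle : |(W.Δ : ℝ)| ≤ ((U : ℝ) * htn x) ^ D := by
      have e1 : W.Δ.natAbs ≤ (U * htn x) ^ D := by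
        calc W.Δ.natAbs ≤ k * W.Δ.natAbs := Nat.le_mul_of_pos_left _ hk0
          _ = ∏ i, (Pool.Agent.Y680.T.Lf (F.α i) x).natAbs ^ F.e i := hprod
          _ ≤ ∏ i, (U * htn x) ^ F.e i := by
              refine Finset.prod_le_prod' fun i _ => Nat.pow_le_pow_left ?_ _
              rw [hU]
              exact F.Lf_le x i
          _ = (U * htn x) ^ D := by rw [Finset.prod_pow_eq_pow_sum, hD]
      have e2 : |(W.Δ : ℝ)| = (W.Δ.natAbs : ℝ) := by
        rw [Nat.cast_natAbs]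
        push_cast
        rfl
      rw [e2]
      exact_mod_cast e1
    have hlogD : Real.log |(W.Δ : ℝ)| ≤ D * (2 * Real.log (htn x)) := by
      have e1 := Real.log_le_log hΔ0 hDle
      rw [Real.log_pow, Real.log_mul (by positivity) hh0.ne'] at e1
      refine e1.trans ?_
      have e2 : Real.log U ≤ Real.log (htn x) :=
        Real.log_le_log (by positivity) (by exact_mod_cast h5.le)
      have e3 : (0 : ℝ) ≤ D := Nat.cast_nonneg _
      nlinarith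
    have hlogM : (2 * M1 * (D + 1)) * Real.log (rd W) ≤ Real.log |(W.Δ : ℝ)| := by
      rw [← Real.log_rpow hrd0]
      exact Real.log_le_log (by positivity) hWM
    have hlogh : 0 ≤ Real.log (htn x) := Real.log_natCast_nonneg _
    -- lower bound for the discriminant
    have hlow : (htn x : ℝ) ≤ c * X ^ A := by
      have i0 : (0 : ℕ) < q := by omega
      have i1 : (1 : ℕ) < q := by omega
      obtain ⟨a, ha⟩ : ∃ a : Fin q, a = ⟨0, i0⟩ := ⟨_, rfl⟩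
      obtain ⟨b, hb⟩ : ∃ b : Fin q, b = ⟨1, i1⟩ := ⟨_, rfl⟩
      have hab : a ≠ b := by
        rw [ha, hb]
        intro h
        simp at h
      have hUi : ∀ i, (F.α i).1.natAbs + (F.α i).2.natAbs ≤ U := by
        intro i
        rw [hU]
        unfold Fam.U
        have := Finset.single_le_sum (f := fun i => (F.α i).1.natAbs + (F.α i).2.natAbs)
          (fun i _ => Nat.zero_le _) (Finset.mem_univ i)
        omega
      have hd : dt (F.α a) (F.α b) ≠ 0 := sub_ne_zero.2 (F.hα a b hab)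
      have e1 := htn_le hd x (hUi a) (hUi b)
      have e2 : ∀ i, (Lf (F.α i) x).natAbs ≤ k * W.Δ.natAbs := by
        intro i
        rw [hprod]
        have hpos : ∀ j, 0 < (Pool.Agent.Y680.T.Lf (F.α j) x).natAbs ^ F.e j := fun j =>
          pow_pos (Int.natAbs_pos.2 (hl j)) _
        refine le_trans ?_ (Nat.le_of_dvd (Finset.prod_pos fun j _ => hpos j)
          (Finset.dvd_prod_of_mem _ (Finset.mem_univ i)))
        have h6 : 1 ≤ F.e i := F.he i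
        calc (Lf (F.α i) x).natAbs = (Pool.Agent.Y680.T.Lf (F.α i) x).natAbs ^ 1 := by
              rw [pow_one]; rfl
          _ ≤ (Pool.Agent.Y680.T.Lf (F.α i) x).natAbs ^ F.e i :=
              Nat.pow_le_pow_right (Int.natAbs_pos.2 (hl i)) h6
      have e3 : htn x ≤ U * (k * W.Δ.natAbs + k * W.Δ.natAbs) := by
        refine e1.trans (Nat.mul_le_mul_left _ (Nat.add_le_add (e2 a) (e2 b)))
      have e4 : htn x ≤ 2 * U * F.A * W.Δ.natAbs := by
        calc htn x ≤ U * (k * W.Δ.natAbs + k * W.Δ.natAbs) := e3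
          _ = 2 * U * k * W.Δ.natAbs := by ring
          _ ≤ 2 * U * F.A * W.Δ.natAbs := by gcongr
      have e5 : (W.Δ.natAbs : ℝ) = |(W.Δ : ℝ)| := by
        rw [Nat.cast_natAbs]
        push_cast
        rfl
      have e6 : (htn x : ℝ) ≤ 2 * U * F.A * |(W.Δ : ℝ)| := by
        rw [← e5]
        exact_mod_cast e4
      have hXA : 0 < X ^ A := by positivity
      calc (htn x : ℝ) ≤ 2 * U * F.A * |(W.Δ : ℝ)| := e6
        _ ≤ 2 * U * F.A * X ^ A := mul_le_mul_of_nonneg_left hWA (by positivity)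
        _ ≤ c * X ^ A := by
            apply mul_le_mul_of_nonneg_right _ hXA.le
            rw [hc]
            nlinarith
    refine ⟨hn, hl, ?_, ?_, ?_⟩
    · refine hN1.trans ?_
      refine Real.log_le_log hrd0 (hWX.trans ?_)
      nlinarith
    · -- the ratio
      have e1 : (2 * M1 * (D + 1)) * Real.log (rd W) ≤ D * (2 * Real.log (htn x)) :=
        hlogM.trans hlogD
      have e0 : (0 : ℝ) ≤ D := Nat.cast_nonneg _
      have e2 : (2 * M1 * (D + 1)) * Real.log (rd W) ≤ (2 * (D + 1)) * Real.log (htn x) := by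
        nlinarith
      have e3 : (2 * (D + 1 : ℝ)) * (M1 * Real.log (rd W)) ≤ (2 * (D + 1)) * Real.log (htn x) := by
        linarith
      have e4 := le_of_mul_le_mul_left e3 (by positivity)
      exact (mul_le_mul_of_nonneg_left hN1 (by positivity)).trans e4
    · calc (htn x : ℝ) ≤ c * X ^ A := hlow
        _ ≤ c ^ A' * X ^ A' := by
            have g1 : c ≤ c ^ A' := by
              calc c = c ^ (1 : ℝ) := (Real.rpow_one c).symm
                _ ≤ c ^ A' := Real.rpow_le_rpow_of_exponent_le hc1 (hA' ▸ le_max_right _ _)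
            have g2 : X ^ A ≤ X ^ A' :=
              Real.rpow_le_rpow_of_exponent_le hX (hA' ▸ le_max_left _ _)
            have : 0 < X ^ A := by positivity
            gcongr
        _ = (c * X) ^ A' := (Real.mul_rpow (by linarith) hX0.le).symm
  have hfin := (box_finite U).union f1
  obtain ⟨g1, g2⟩ := ncard_biUnion_le hfin F.R F.K F.hK h1
  refine ⟨g1, g2.trans ?_⟩
  have g3 : (({x : ℤ × ℤ | htn x ≤ U} ∪ Tall F.α F.S M1 A' (c * X) : Set (ℤ × ℤ)).ncard : ℝ) ≤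
      ({x : ℤ × ℤ | htn x ≤ U} : Set (ℤ × ℤ)).ncard +
        ((Tall F.α F.S M1 A' (c * X)).ncard : ℝ) := by
    exact_mod_cast Set.ncard_union_le _ _
  have g4 : 1 ≤ X ^ (1 / (q : ℝ) + ε) := Real.one_le_rpow hX (by positivity)
  have g5 : (c * X) ^ (1 / (q : ℝ) + ε) = c ^ (1 / (q : ℝ) + ε) * X ^ (1 / (q : ℝ) + ε) :=
    Real.mul_rpow (by linarith) hX0.le
  rw [g5] at f2
  have g6 : (0 : ℝ) ≤ ({x : ℤ × ℤ | htn x ≤ U} : Set (ℤ × ℤ)).ncard := Nat.cast_nonneg _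
  have g7 : (0 : ℝ) ≤ F.K := Nat.cast_nonneg _
  have g8 : (0 : ℝ) ≤ (({x : ℤ × ℤ | htn x ≤ U} ∪ Tall F.α F.S M1 A' (c * X) :
      Set (ℤ × ℤ)).ncard : ℝ) := Nat.cast_nonneg _
  calc (F.K : ℝ) * (({x : ℤ × ℤ | htn x ≤ U} ∪ Tall F.α F.S M1 A' (c * X) :
        Set (ℤ × ℤ)).ncard : ℝ)
      ≤ (F.K + 1) * (({x : ℤ × ℤ | htn x ≤ U} : Set (ℤ × ℤ)).ncard * X ^ (1 / (q : ℝ) + ε) +
        C * (c ^ (1 / (q : ℝ) + ε) * X ^ (1 / (q : ℝ) + ε))) := by
        apply mul_le_mul (by linarith) _ g8 (by linarith)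
        have := mul_le_mul_of_nonneg_left g4 g6
        linarith
    _ = _ := by ring

/-- the invariants of the curves with the property `P`, of naive height at most `H`, with
`c₀ rd W ^ κ < |Δ|` -/
def VC (P : WeierstrassCurve ℤ → Prop) (κ c₀ H : ℝ) : Set (ℤ × ℤ) :=
  {g | ∃ W, P W ∧ |(W.c₄ : ℝ)| ^ 3 ≤ H ∧ (W.c₆ : ℝ) ^ 2 ≤ H ∧ c₀ * (rd W : ℝ) ^ κ < |(W.Δ : ℝ)| ∧
    inv W = g}

lemma disc_le (W : WeierstrassCurve ℤ) {H : ℝ} (h4 : |(W.c₄ : ℝ)| ^ 3 ≤ H)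
    (h6 : (W.c₆ : ℝ) ^ 2 ≤ H) : |(W.Δ : ℝ)| ≤ H := by
  have e : (1728 : ℝ) * (W.Δ : ℝ) = (W.c₄ : ℝ) ^ 3 - (W.c₆ : ℝ) ^ 2 := by
    exact_mod_cast W.c_relation
  have h0 : (0 : ℝ) ≤ H := (sq_nonneg _).trans h6
  have h1 : |(1728 : ℝ) * (W.Δ : ℝ)| ≤ 2 * H := by
    rw [e]
    calc |(W.c₄ : ℝ) ^ 3 - (W.c₆ : ℝ) ^ 2| ≤ |(W.c₄ : ℝ) ^ 3| + |(W.c₆ : ℝ) ^ 2| := abs_sub _ _
      _ = |(W.c₄ : ℝ)| ^ 3 + (W.c₆ : ℝ) ^ 2 := by rw [abs_pow, abs_of_nonneg (sq_nonneg (W.c₆ : ℝ))]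
      _ ≤ 2 * H := by linarith
  rw [abs_mul, abs_of_pos (by norm_num : (0 : ℝ) < 1728)] at h1
  linarith

include F in
theorem fam_height (hq : 3 ≤ q) (ε : ℝ) (hε : 0 < ε) {M : ℝ} (hM1 : 1 ≤ M)
    (hM : ∀ A : ℝ, ∃ C : ℝ, 0 < C ∧ ∀ X : ℝ, 1 ≤ X → (TC P M A X).Finite ∧
      ((TC P M A X).ncard : ℝ) ≤ C * X ^ (1 / (q : ℝ) + ε)) (κ c₀ : ℝ) (hκ : M + 1 ≤ κ)
    (hc₀ : 0 < c₀) : ∃ C : ℝ, 0 < C ∧ ∀ H : ℝ, 1 ≤ H → (VC P κ c₀ H).Finite ∧
      ((VC P κ c₀ H).ncard : ℝ) ≤ C * H ^ ((1 / (q : ℝ) + ε) / κ) := by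
  obtain ⟨C, hC, h⟩ := hM κ
  obtain ⟨b, hb⟩ : ∃ b : ℝ, b = max 1 (1 / c₀) := ⟨_, rfl⟩
  have hb1 : 1 ≤ b := hb ▸ le_max_left _ _
  have hb2 : 1 / c₀ ≤ b := hb ▸ le_max_right _ _
  have hb0 : 0 < b := by linarith
  have hκ0 : 0 < κ := by linarith
  have hq0 : (0 : ℝ) < q := by
    have : 0 < q := by omega
    exact_mod_cast this
  obtain ⟨C1, hC1, h1⟩ := F.upper hq
  obtain ⟨f3, f4⟩ := h1 b hb1
  refine ⟨C1 * b ^ (2 / (q : ℝ)) + C * b ^ ((1 / (q : ℝ) + ε)), by positivity, fun H hH => ?_⟩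
  have hH0 : 0 < H := by linarith
  have hX1 : 1 ≤ b * H ^ (1 / κ) := by
    have : 1 ≤ H ^ (1 / κ) := Real.one_le_rpow hH (by positivity)
    nlinarith
  obtain ⟨f1, f2⟩ := h (b * H ^ (1 / κ)) hX1
  have hsub : VC P κ c₀ H ⊆ Cv P b ∪ TC P M κ (b * H ^ (1 / κ)) := by
    rintro g ⟨W, hW, h4, h6, hv, hg⟩
    have hrd : (1 : ℝ) ≤ rd W := by exact_mod_cast rd_pos W
    have hrd0 : (0 : ℝ) < rd W := by linarith
    have hΔ := disc_le W h4 h6
    rcases le_or_gt (rd W : ℝ) b with h5 | h5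
    · exact Or.inl ⟨W, hW, h5, hg⟩
    right
    refine ⟨W, hW, ?_, ?_, ?_, hg⟩
    · have e1 : (rd W : ℝ) ^ κ ≤ b * H := by
        have e2 : c₀ * (rd W : ℝ) ^ κ ≤ H := (hv.trans_le hΔ).le
        have e3 : (rd W : ℝ) ^ κ ≤ H / c₀ := by
          rw [le_div_iff₀ hc₀]
          linarith
        calc (rd W : ℝ) ^ κ ≤ H / c₀ := e3
          _ = 1 / c₀ * H := by ring
          _ ≤ b * H := mul_le_mul_of_nonneg_right hb2 hH0.le
      have e4 : (rd W : ℝ) = ((rd W : ℝ) ^ κ) ^ (1 / κ) := by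
        rw [← Real.rpow_mul hrd0.le, mul_one_div_cancel hκ0.ne', Real.rpow_one]
      rw [e4]
      calc ((rd W : ℝ) ^ κ) ^ (1 / κ) ≤ (b * H) ^ (1 / κ) :=
            Real.rpow_le_rpow (by positivity) e1 (by positivity)
        _ = b ^ (1 / κ) * H ^ (1 / κ) := Real.mul_rpow hb0.le hH0.le
        _ ≤ b * H ^ (1 / κ) := by
            apply mul_le_mul_of_nonneg_right _ (by positivity)
            calc b ^ (1 / κ) ≤ b ^ (1 : ℝ) := by
                  apply Real.rpow_le_rpow_of_exponent_le hb1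
                  rw [div_le_one hκ0]
                  linarith
              _ = b := Real.rpow_one b
    · refine le_trans ?_ hv.le
      have e1 : (rd W : ℝ) ^ κ = (rd W : ℝ) ^ (κ - M) * (rd W : ℝ) ^ M := by
        rw [← Real.rpow_add hrd0]
        congr 1
        ring
      have e2 : (rd W : ℝ) ≤ (rd W : ℝ) ^ (κ - M) := by
        calc (rd W : ℝ) = (rd W : ℝ) ^ (1 : ℝ) := (Real.rpow_one _).symm
          _ ≤ _ := Real.rpow_le_rpow_of_exponent_le hrd (by linarith)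
      have e3 : 1 ≤ c₀ * (rd W : ℝ) := by
        have : 1 / c₀ ≤ rd W := hb2.trans h5.le
        rw [div_le_iff₀ hc₀] at this
        linarith
      rw [e1, ← mul_assoc]
      apply le_mul_of_one_le_left (by positivity)
      nlinarith
    · calc |(W.Δ : ℝ)| ≤ H := hΔ
        _ = (H ^ (1 / κ)) ^ κ := by
            rw [← Real.rpow_mul hH0.le, one_div_mul_cancel hκ0.ne', Real.rpow_one]
        _ ≤ (b * H ^ (1 / κ)) ^ κ := by
            apply Real.rpow_le_rpow (by positivity) _ hκ0.le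
            exact le_mul_of_one_le_left (by positivity) hb1
  have hfin := f3.union f1
  refine ⟨hfin.subset hsub, ?_⟩
  have g1 := (Set.ncard_le_ncard hsub hfin).trans (Set.ncard_union_le _ _)
  have g2 : ((VC P κ c₀ H).ncard : ℝ) ≤ ((Cv P b).ncard : ℝ) +
      ((TC P M κ (b * H ^ (1 / κ))).ncard : ℝ) := by exact_mod_cast g1
  have g3 : 1 ≤ H ^ ((1 / (q : ℝ) + ε) / κ) := Real.one_le_rpow hH (by positivity)
  have g4 : (b * H ^ (1 / κ)) ^ (1 / (q : ℝ) + ε) = b ^ (1 / (q : ℝ) + ε) *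
      H ^ ((1 / (q : ℝ) + ε) / κ) := by
    rw [Real.mul_rpow hb0.le (by positivity), ← Real.rpow_mul hH0.le]
    congr 2
    ring
  rw [g4] at f2
  have g5 : 0 ≤ C1 * b ^ (2 / (q : ℝ)) := by positivity
  calc ((VC P κ c₀ H).ncard : ℝ) ≤ ((Cv P b).ncard : ℝ) +
      ((TC P M κ (b * H ^ (1 / κ))).ncard : ℝ) := g2
    _ ≤ C1 * b ^ (2 / (q : ℝ)) * H ^ ((1 / (q : ℝ) + ε) / κ) +
        C * (b ^ (1 / (q : ℝ) + ε) * H ^ ((1 / (q : ℝ) + ε) / κ)) := by
        have := mul_le_mul_of_nonneg_left g3 g5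
        linarith
    _ = _ := by ring

end

/-- a curve with a subgroup `ℤ/2 × ℤ/2` of rational points has full 2-torsion -/
lemma full_of_tor {W : WeierstrassCurve ℤ} (h : Tor (ZMod 2 × ZMod 2) W) :
    Pool.Agent.H925R.Szpiro.Full W := by
  obtain ⟨-, f, hf⟩ := h
  have hne : ∀ z : ZMod 2 × ZMod 2, z ≠ 0 → f z ≠ 0 := fun z hz h =>
    hz (hf (h.trans (map_zero f).symm))
  have h2 : ∀ z : ZMod 2 × ZMod 2, 2 • f z = 0 := by
    intro z
    rw [← map_nsmul]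
    have : (2 : ℕ) • z = 0 := by
      revert z
      decide
    rw [this, map_zero]
  obtain ⟨e1, e2, e3, y1, hn, -, b2, b4, b6⟩ := full2 (f (1, 0)) (f (0, 1)) (h2 _) (h2 _)
    (hne _ (by decide)) (hne _ (by decide)) (fun h => by
      have := hf h
      revert this
      decide)
  refine ⟨e1, e2, e3, fun x => ?_⟩
  have c2 : (W.b₂ : ℚ) = -4 * (e1 + e2 + e3) := by
    rw [← b2, WeierstrassCurve.map_b₂]
    simp
  have c4 : (W.b₄ : ℚ) = 2 * (e1 * e2 + e1 * e3 + e2 * e3) := by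
    rw [← b4, WeierstrassCurve.map_b₄]
    simp
  have c6 : (W.b₆ : ℚ) = -4 * (e1 * e2 * e3) := by
    rw [← b6, WeierstrassCurve.map_b₆]
    simp
  rw [c2, c4, c6]
  ring

/-- the points -/
def α22 : Fin 3 → ℤ × ℤ := ![(0, 1), (1, 0), (-1, 1)]

/-- the family of the semistable curves with full 2-torsion -/
noncomputable def F22 : Fam 3 (Tor (ZMod 2 × ZMod 2)) where
  α := α22
  S := {2}
  e := fun _ => 2
  A := 256
  K := 1
  R x := {Pool.Agent.Y680.S.ff (x.1.natAbs, x.2.natAbs)}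
  hα := by decide
  hS i j hij p hp h := by
    exfalso
    have h1 : ∀ i j : Fin 3, i ≠ j →
      ((α22 i).1 * (α22 j).2 - (α22 j).1 * (α22 i).2).natAbs = 1 := by decide
    have h2 := Int.natCast_dvd.1 h
    rw [h1 i j hij] at h2
    exact hp.one_lt.ne' (Nat.dvd_one.1 h2)
  he := fun _ => by norm_num
  hK x := by rw [Finset.card_singleton]
  hP W h := h.1.1
  hx W hW := by
    obtain ⟨p, h1, h2, h3, -, h5, h6⟩ := Pool.Agent.Y680.S.exists_pair W hW.1.1 hW.1.2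
      (full_of_tor hW)
    have hp2 : 0 < p.2 := by omega
    have hp2' : (0 : ℤ) < (p.2 : ℤ) := by exact_mod_cast hp2
    refine ⟨((p.1 : ℤ), (p.2 : ℤ)), ⟨?_, Or.inl hp2'⟩, ?_, 256, by norm_num,
      le_rfl, ?_, ?_, ?_⟩
    · exact Nat.isCoprime_iff_coprime.2 h3
    · intro i
      fin_cases i
      · change (p.1 : ℤ) * 1 - p.2 * 0 ≠ 0
        omega
      · change (p.1 : ℤ) * 0 - p.2 * 1 ≠ 0
        omega
      · change (p.1 : ℤ) * 1 - p.2 * (-1) ≠ 0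
        omega
    · intro r hr h
      rw [Finset.mem_singleton]
      have h' : r ∣ 2 ^ 8 := h
      exact (Nat.prime_dvd_prime_iff_eq hr Nat.prime_two).1 (hr.dvd_of_dvd_pow h')
    · rw [Fin.prod_univ_three]
      change 256 * W.Δ.natAbs = ((p.1 : ℤ) * 1 - p.2 * 0).natAbs ^ 2 *
        ((p.1 : ℤ) * 0 - p.2 * 1).natAbs ^ 2 * ((p.1 : ℤ) * 1 - p.2 * (-1)).natAbs ^ 2
      have e1 : ((p.1 : ℤ) * 1 - p.2 * 0).natAbs = p.1 := by omega
      have e2 : ((p.1 : ℤ) * 0 - p.2 * 1).natAbs = p.2 := by omega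
      have e3 : ((p.1 : ℤ) * 1 - p.2 * (-1)).natAbs = p.1 + p.2 := by omega
      rw [e1, e2, e3]
      have h7 := congrArg Int.natAbs h6
      rw [Int.natAbs_mul, Int.natAbs_pow, Int.natAbs_natCast] at h7
      change 256 * W.Δ.natAbs = _ at h7
      rw [h7]
      ring
    · rw [Finset.mem_singleton]
      simp only [Int.natAbs_natCast]
      exact h5

end Pool.Agent.N840.TP
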